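import Pool.Agent.Work.MP_d3dc9d_co.Defs
import Pool.Agent.Work.MP_d3dc9d_co.Bridge

/-!
# Doubly rotten sequences have long tails

If `S` is doubly rotten then there are two moments at which `3 S_t` respectively `2 S_u` is an exact
power `Y^k`, `Z^l` with `k, l ≥ 3`. By the theorem of Fine and Wilf the later period is larger than
`(k-1)` times the earlier one. A closer look at the curling rule inside the almost periodic word
`S_u` shows that the later power is that of `2 S_u` and that `|Z| > k |Y|`, whence the bound.
-/

set_option autoImplicit false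

open Pool.Agent.Work.MP_d3dc9d_co

namespace Pool.Agent.Results.MP_d3dc9d_co.LongTail

/-- Every doubly rotten sequence `S` has tail length at least `2 |S| + 6`. -/
theorem result (S : List ℕ) (hS : S ≠ []) (hrot : DoublyRotten S) :
    ((2 * S.length + 6 : ℕ) : ℕ∞) ≤ tau S := by
  obtain ⟨h2, h3⟩ := hrot
  obtain ⟨t, y, k, ht, ev3⟩ := exists_event hS h3
  obtain ⟨u, z, l, hu, ev2⟩ := exists_event hS h2
  have hkey := key (word_rule hS) ev3 ev2
  have h1 : ((2 * S.length + 6 : ℕ) : ℕ∞) ≤ ((u + 1 : ℕ) : ℕ∞) := by
    exact_mod_cast (by omega : 2 * S.length + 6 ≤ u + 1)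
  refine h1.trans ?_
  have := Order.add_one_le_of_lt hu
  exact_mod_cast this

end Pool.Agent.Results.MP_d3dc9d_co.LongTail
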