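import Pool.Agent.Work.MP_d3dc9d_co.OmegaDef
import Pool.Agent.Results.MP_d3dc9d_co.LongTail

/-!
# Monotonicity of `Ω` where it is at most `2 n + 5`
-/

set_option autoImplicit false

open Pool.Agent.Work.MP_d3dc9d_co

namespace Pool.Agent.Results.MP_d3dc9d_co.OmegaMonotone

/-- `Ω(n) ≤ Ω(n+1)` for every `n ≥ 1` with `Ω(n) ≤ 2 n + 5`. -/
theorem result (n : ℕ) (hn : 1 ≤ n) (h : Omega n ≤ ((2 * n + 5 : ℕ) : ℕ∞)) :
    Omega n ≤ Omega (n + 1) := by
  refine iSup_le fun S => iSup_le fun hS => iSup_le fun hl => ?_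
  have hne : S ≠ [] := by
    rintro rfl
    simp at hS
    omega
  have htau : tau S ≤ Omega n :=
    le_iSup_of_le S (le_iSup_of_le hS (le_iSup_of_le hl le_rfl))
  have hnot : ¬ DoublyRotten S := by
    intro hrot
    have h1 := LongTail.result S hne hrot
    rw [hS] at h1
    have h2 := (h1.trans htau).trans h
    have h3 : 2 * n + 6 ≤ 2 * n + 5 := by exact_mod_cast h2
    omega
  have hc : ∃ c, (c = 2 ∨ c = 3) ∧ tau S ≤ tau (c :: S) := by
    by_contra hcon
    push Not at hcon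
    exact hnot ⟨hcon 2 (Or.inl rfl), hcon 3 (Or.inr rfl)⟩
  obtain ⟨c, hc, hle⟩ := hc
  refine hle.trans ?_
  refine le_iSup_of_le (c :: S) (le_iSup_of_le (by simp [hS]) (le_iSup_of_le ?_ le_rfl))
  intro a ha
  rcases List.mem_cons.1 ha with rfl | ha
  · exact hc
  · exact hl a ha

end Pool.Agent.Results.MP_d3dc9d_co.OmegaMonotone
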